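import Mathlib

namespace Pool.Agent.Results.MP_580194_an.EveryLength

/-- `(x i, f i)`, `i < N`, is a finite unit norm tight frame of length `N` for real `ℓ_1^n`:
`‖x i‖_1 = ‖f i‖_∞ = f i (x i) = 1` and `∑ i, f i (v) x i = (N/n) v` for all `v`. -/
def IsFUNTF (n N : ℕ) (x f : Fin N → Fin n → ℝ) : Prop :=
  (∀ i, ∑ j, |x i j| = 1) ∧ (∀ i, IsLUB (Set.range fun j => |f i j|) 1) ∧
    (∀ i, ∑ j, f i j * x i j = 1) ∧
    ∀ v : Fin n → ℝ, ∑ i, (∑ j, f i j * v j) • x i = ((N : ℝ) / n) • v

/-- **Q1 holds.** With `N = q n + s`, `0 ≤ s < n`, take `s` times the pair `((1/n) 1, 1)` and,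
for every `j`, `q` times the pair `(e_j, f)` with `f_j = 1` and all other entries `-s/(nq)`. -/
theorem result : ∀ n : ℕ, 1 ≤ n → ∀ N : ℕ, n ≤ N →
    ∃ x f : Fin N → Fin n → ℝ, IsFUNTF n N x f := by
  intro n hn N hN
  set q := N / n with hq
  set s := N % n with hs
  have hqs : n * q + s = N := Nat.div_add_mod N n
  have hsn : s < n := Nat.mod_lt _ (by omega)
  have hq1 : 1 ≤ q := (Nat.one_le_div_iff (by omega)).2 hN
  have hn0 : (0 : ℝ) < n := by exact_mod_cast hn
  have hq0 : (0 : ℝ) < q := by exact_mod_cast hq1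
  have hs0 : (0 : ℝ) ≤ s := Nat.cast_nonneg s
  have hsn' : (s : ℝ) ≤ n := by exact_mod_cast hsn.le
  set c : ℝ := s / (n * q) with hc
  have hc0 : 0 ≤ c := by positivity
  have hc1 : c ≤ 1 := by
    rw [hc, div_le_one (by positivity)]
    have : (1 : ℝ) ≤ q := by exact_mod_cast hq1
    nlinarith
  have hcard : Fintype.card (Fin N) = Fintype.card (Fin s ⊕ (Fin q × Fin n)) := by
    rw [Fintype.card_fin, Fintype.card_sum, Fintype.card_prod, Fintype.card_fin, Fintype.card_fin,
      Fintype.card_fin, ← hqs]
    ring
  let e : Fin N ≃ Fin s ⊕ (Fin q × Fin n) := Fintype.equivOfCardEq hcard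
  let X : Fin s ⊕ (Fin q × Fin n) → Fin n → ℝ := Sum.elim (fun _ _ => 1 / (n : ℝ))
    (fun p l => if l = p.2 then 1 else 0)
  let F : Fin s ⊕ (Fin q × Fin n) → Fin n → ℝ := Sum.elim (fun _ _ => 1)
    (fun p l => if l = p.2 then 1 else -c)
  refine ⟨fun i => X (e i), fun i => F (e i), ?_, ?_, ?_, ?_⟩
  · intro i
    beta_reduce
    generalize e i = w
    rcases w with a | p
    · simp only [X, Sum.elim_inl]
      rw [Finset.sum_const, Finset.card_univ, Fintype.card_fin, nsmul_eq_mul,
        abs_of_pos (by positivity)]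
      field_simp
    · simp only [X, Sum.elim_inr]
      rw [Finset.sum_eq_single p.2]
      · simp
      · intro b _ hb
        simp [hb]
      · simp
  · intro i
    beta_reduce
    generalize e i = w
    rcases w with a | p
    · simp only [F, Sum.elim_inl, abs_one]
      have : Nonempty (Fin n) := ⟨⟨0, by omega⟩⟩
      rw [Set.range_const]
      exact isLUB_singleton
    · simp only [F, Sum.elim_inr]
      constructor
      · rintro _ ⟨l, rfl⟩
        simp only
        split_ifs
        · simp
        · rw [abs_neg, abs_of_nonneg hc0]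
          exact hc1
      · intro b hb
        have := hb ⟨p.2, rfl⟩
        simpa using this
  · intro i
    beta_reduce
    generalize e i = w
    rcases w with a | p
    · simp only [X, F, Sum.elim_inl]
      rw [Finset.sum_const, Finset.card_univ, Fintype.card_fin, nsmul_eq_mul]
      field_simp
    · simp only [X, F, Sum.elim_inr]
      rw [Finset.sum_eq_single p.2]
      · simp
      · intro b _ hb
        simp [hb]
      · simp
  · intro v
    rw [Equiv.sum_comp e (fun a => (∑ j, F a j * v j) • X a), Fintype.sum_sum_type,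
      Fintype.sum_prod_type]
    funext l
    simp only [X, F, Sum.elim_inl, Sum.elim_inr, Pi.add_apply, Finset.sum_apply, Pi.smul_apply,
      smul_eq_mul, one_mul]
    rw [Finset.sum_const, Finset.card_univ, Fintype.card_fin, nsmul_eq_mul]
    have h1 : ∀ j : Fin n, ∑ k, (if k = j then (1 : ℝ) else -c) * v k =
        (1 + c) * v j - c * ∑ k, v k := by
      intro j
      have : ∀ k, (if k = j then (1 : ℝ) else -c) * v k = (if k = j then (1 + c) * v k else 0) -
          c * v k := by
        intro k
        split_ifs <;> ring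
      rw [Finset.sum_congr rfl fun k _ => this k, Finset.sum_sub_distrib, Finset.mul_sum,
        Finset.sum_ite_eq' Finset.univ j]
      simp
    have h2 : ∀ k : Fin q, ∑ j, (∑ k, (if k = j then (1 : ℝ) else -c) * v k) *
        (if l = j then 1 else 0) = (1 + c) * v l - c * ∑ k, v k := by
      intro _
      rw [Finset.sum_eq_single l]
      · rw [h1]
        simp
      · intro b _ hb
        simp [Ne.symm hb]
      · simp
    rw [Finset.sum_congr rfl fun k _ => h2 k, Finset.sum_const, Finset.card_univ,
      Fintype.card_fin, nsmul_eq_mul]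
    have h3 : (N : ℝ) = n * q + s := by rw [← hqs]; push_cast; ring
    rw [h3, hc]
    field_simp
    ring

end Pool.Agent.Results.MP_580194_an.EveryLength
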